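import Mathlib
import Pool.Agent.N969.P17G.Defs
import Pool.Agent.N969.P17G.Defs2
import Pool.Agent.N575.P17.HE

/-!
# P17G: the vanishing of the character sums outside the classes

The signs are given by characters (`Sg`), the substitution `v ↦ -v` multiplies the product of the
characters by the sign at `T = 0`, and the rotation of order two with axis `(1, 1, 2)` (norm `68`)
by the sign at `17 c²`.
-/

set_option autoImplicit false

namespace Pool.Agent.N99.P17G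

open Finset
open Pool.Agent.N969.P15 (V3 tw ep2 Qc Qe psp un Ev tb c2 chE psp2)
open Pool.Agent.N972.P17
open Pool.Agent.N969.P17G
open Pool.Agent.N575.P17 (mem_vec1 mem_vec2)

/-- the sign of two vectors of norm `n` is a product of characters -/
def Sg (ip : V3 → V3 → ℤ) (S : Finset V3) (n : ℕ) (s : ℤ → ℤ) : Prop :=
  ∃ f : V3 → ℤ, ∀ v ∈ S, ∀ w ∈ S, s ((n + ip v w) / 2) = f v * f w

/-- the vanishing from a substitution -/
theorem vanish (ip : V3 → V3 → ℤ) (S : Finset V3) (n : ℕ) (A : Finset ℕ) (s : ℕ → ℤ → ℤ)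
    (hs : ∀ p ∈ A, Sg ip S n (s p)) (τ : V3 → V3) (h1 : ∀ v ∈ S, τ v ∈ S)
    (h2 : ∀ v ∈ S, τ (τ v) = v)
    (h3 : ∀ v ∈ S, ∏ p ∈ A, s p ((n + ip v (τ v)) / 2) = -1) :
    ∑ v ∈ S, ∑ w ∈ S, ∏ p ∈ A, s p ((n + ip v w) / 2) = 0 := by
  classical
  choose! f hf using hs
  set F : V3 → ℤ := fun v => ∏ p ∈ A, f p v with hF
  have e1 : ∀ v ∈ S, ∀ w ∈ S, ∏ p ∈ A, s p ((n + ip v w) / 2) = F v * F w := by
    intro v hv w hw
    rw [hF]
    simp only
    rw [← prod_mul_distrib]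
    exact prod_congr rfl fun p hp => hf p hp v hv w hw
  have e2 : ∀ v ∈ S, F (τ v) = - F v := by
    intro v hv
    have h := e1 v hv (τ v) (h1 v hv)
    rw [h3 v hv] at h
    have h5 : IsUnit (F v) := by
      refine IsUnit.of_mul_eq_one (-F (τ v)) ?_
      linarith
    rcases Int.isUnit_iff.1 h5 with h6 | h6
    · rw [h6] at h ⊢; linarith
    · rw [h6] at h ⊢; linarith
  have e3 : ∑ v ∈ S, F v = ∑ v ∈ S, F (τ v) :=
    sum_nbij' τ τ h1 h1 h2 h2 (fun v hv => by rw [h2 v hv])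
  have e4 : ∑ v ∈ S, F v = 0 := by
    have h : ∑ v ∈ S, F (τ v) = - ∑ v ∈ S, F v := by
      rw [← sum_neg_distrib]
      exact sum_congr rfl e2
    linarith
  calc ∑ v ∈ S, ∑ w ∈ S, ∏ p ∈ A, s p ((n + ip v w) / 2)
      = ∑ v ∈ S, ∑ w ∈ S, F v * F w := sum_congr rfl fun v hv => sum_congr rfl fun w hw => e1 v hv w hw
    _ = ∑ v ∈ S, F v * ∑ w ∈ S, F w := sum_congr rfl fun v _ => by rw [mul_sum]
    _ = 0 := by rw [e4]; simp

/-- the sign at `p`, `p` odd or `2` -/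
noncomputable def sE (n p : ℕ) (T : ℤ) : ℤ := if p = 2 then sg2 1 n T else sgp 1 n p T

theorem P11E_eq (A n : ℕ) : P11E 1 A n =
    ∑ v ∈ vec1 n, ∑ w ∈ vec1 n, ∏ p ∈ A.primeFactors, sE n p ((n + ip1 v w) / 2) := by
  unfold P11E sgnE sE
  simp

theorem P22E_eq (A n : ℕ) : P22E 1 A n =
    ∑ v ∈ vec2 n, ∑ w ∈ vec2 n, ∏ p ∈ A.primeFactors, sE n p ((n + ip2 v w) / 2) := by
  unfold P22E sgnE sE
  simp

theorem P11_eq (A n : ℕ) (h : ¬ 2 ∣ A) : P11 1 A n =
    ∑ v ∈ vec1 n, ∑ w ∈ vec1 n, ∏ p ∈ A.primeFactors, sE n p ((n + ip1 v w) / 2) := by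
  unfold P11 sgn sE
  simp only [one_pow, one_mul, Nat.cast_one]
  refine sum_congr rfl fun v _ => sum_congr rfl fun w _ => prod_congr rfl fun p hp => ?_
  rw [if_neg]
  rintro rfl
  exact h (Nat.dvd_of_mem_primeFactors hp)

theorem P22_eq (A n : ℕ) (h : ¬ 2 ∣ A) : P22 1 A n =
    ∑ v ∈ vec2 n, ∑ w ∈ vec2 n, ∏ p ∈ A.primeFactors, sE n p ((n + ip2 v w) / 2) := by
  unfold P22 sgn sE
  simp only [one_pow, one_mul, Nat.cast_one]
  refine sum_congr rfl fun v _ => sum_congr rfl fun w _ => prod_congr rfl fun p hp => ?_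
  rw [if_neg]
  rintro rfl
  exact h (Nat.dvd_of_mem_primeFactors hp)

/-! ### the two substitutions -/

/-- the rotation of order two with axis `(1, 1, 2)` -/
def rho (v : V3) : V3 := ![-v 0 + v 2, -v 1 + v 2, v 2]

theorem rho_rho (v : V3) : rho (rho v) = v := by
  funext i
  fin_cases i <;> simp [rho]

theorem ip1_rho (v : V3) : ip1 v (rho v) = 34 * v 2 ^ 2 - ip1 v v := by
  simp only [rho, ip1, Matrix.cons_val_zero, Matrix.cons_val_one, Matrix.cons_val]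
  ring

theorem ip2_rho (v : V3) : ip2 v (rho v) = 34 * v 2 ^ 2 - ip2 v v := by
  simp only [rho, ip2, Matrix.cons_val_zero, Matrix.cons_val_one, Matrix.cons_val]
  ring

theorem ip1_rho_rho (v : V3) : ip1 (rho v) (rho v) = ip1 v v := by
  simp only [rho, ip1, Matrix.cons_val_zero, Matrix.cons_val_one, Matrix.cons_val]
  ring

theorem ip2_rho_rho (v : V3) : ip2 (rho v) (rho v) = ip2 v v := by
  simp only [rho, ip2, Matrix.cons_val_zero, Matrix.cons_val_one, Matrix.cons_val]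
  ring

theorem ip1_neg (v : V3) : ip1 v (-v) = - ip1 v v := by
  simp only [ip1, Pi.neg_apply]; ring

theorem ip2_neg (v : V3) : ip2 v (-v) = - ip2 v v := by
  simp only [ip2, Pi.neg_apply]; ring

theorem ip1_neg_neg (v : V3) : ip1 (-v) (-v) = ip1 v v := by
  simp only [ip1, Pi.neg_apply]; ring

theorem ip2_neg_neg (v : V3) : ip2 (-v) (-v) = ip2 v v := by
  simp only [ip2, Pi.neg_apply]; ring

/-- both cases for the substitution `v ↦ -v` -/
theorem van_neg {n : ℕ} {A : Finset ℕ}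
    (h1 : ∀ p ∈ A, Sg ip1 (vec1 n) n (sE n p)) (h2 : ∀ p ∈ A, Sg ip2 (vec2 n) n (sE n p))
    (h : ∏ p ∈ A, sE n p 0 = -1) :
    ∑ v ∈ vec1 n, ∑ w ∈ vec1 n, ∏ p ∈ A, sE n p ((n + ip1 v w) / 2) = 0 ∧
    ∑ v ∈ vec2 n, ∑ w ∈ vec2 n, ∏ p ∈ A, sE n p ((n + ip2 v w) / 2) = 0 := by
  constructor
  · refine vanish ip1 _ n A (sE n) h1 (fun v => -v) ?_ (fun v _ => neg_neg v) ?_
    · intro v hv
      rw [mem_vec1] at hv ⊢
      rw [ip1_neg_neg, hv]
    · intro v hv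
      rw [mem_vec1] at hv
      simp only [ip1_neg, hv, add_neg_cancel, EuclideanDomain.zero_div]
      exact h
  · refine vanish ip2 _ n A (sE n) h2 (fun v => -v) ?_ (fun v _ => neg_neg v) ?_
    · intro v hv
      rw [mem_vec2] at hv ⊢
      rw [ip2_neg_neg, hv]
    · intro v hv
      rw [mem_vec2] at hv
      simp only [ip2_neg, hv, add_neg_cancel, EuclideanDomain.zero_div]
      exact h

/-- both cases for the rotation -/
theorem van_rho {n : ℕ} {A : Finset ℕ}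
    (h1 : ∀ p ∈ A, Sg ip1 (vec1 n) n (sE n p)) (h2 : ∀ p ∈ A, Sg ip2 (vec2 n) n (sE n p))
    (k1 : ∀ v ∈ vec1 n, ∏ p ∈ A, sE n p (17 * v 2 ^ 2) = -1)
    (k2 : ∀ v ∈ vec2 n, ∏ p ∈ A, sE n p (17 * v 2 ^ 2) = -1) :
    ∑ v ∈ vec1 n, ∑ w ∈ vec1 n, ∏ p ∈ A, sE n p ((n + ip1 v w) / 2) = 0 ∧
    ∑ v ∈ vec2 n, ∑ w ∈ vec2 n, ∏ p ∈ A, sE n p ((n + ip2 v w) / 2) = 0 := by
  constructor
  · refine vanish ip1 _ n A (sE n) h1 rho ?_ (fun v _ => rho_rho v) ?_
    · intro v hv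
      rw [mem_vec1] at hv ⊢
      rw [ip1_rho_rho, hv]
    · intro v hv
      rw [← k1 v hv]
      rw [mem_vec1] at hv
      have e : ((n : ℤ) + ip1 v (rho v)) / 2 = 17 * v 2 ^ 2 := by
        rw [ip1_rho, hv]; omega
      rw [e]
  · refine vanish ip2 _ n A (sE n) h2 rho ?_ (fun v _ => rho_rho v) ?_
    · intro v hv
      rw [mem_vec2] at hv ⊢
      rw [ip2_rho_rho, hv]
    · intro v hv
      rw [← k2 v hv]
      rw [mem_vec2] at hv
      have e : ((n : ℤ) + ip2 v (rho v)) / 2 = 17 * v 2 ^ 2 := by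
        rw [ip2_rho, hv]; omega
      rw [e]

end Pool.Agent.N99.P17G
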