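import Mathlib
import Pool.Agent.N99.P17G.Van

/-!
# P17G: the signs of the two substitutions and the vanishing theorems
-/

set_option autoImplicit false

namespace Pool.Agent.N99.P17G

open Finset
open Pool.Agent.N969.P15 (V3 tw ep2 Qc Qe psp un Ev tb c2 chE psp2)
open Pool.Agent.N972.P17
open Pool.Agent.N969.P17G
open Pool.Agent.N575.P17 (mem_vec1 mem_vec2)
open scoped NumberTheorySymbols

/-! ### the sign of `-1` -/

theorem sE_zero {n p : ℕ} (hp : p ≠ 2) : sE n p 0 = jacobiSym (-1) p := by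
  unfold sE sgp
  rw [if_neg hp]
  simp

theorem sE_zero_two (n : ℕ) : sE n 2 0 = c2 n (-1) := by
  unfold sE sg2
  simp

/-! ### the sign of the rotation -/

theorem gcd_one {p : ℕ} [Fact p.Prime] {x : ℤ} (h : ¬ (p : ℤ) ∣ x) : Int.gcd x p = 1 := by
  have hp : Prime (p : ℤ) := Nat.prime_iff_prime_int.1 (Fact.out)
  exact Int.isCoprime_iff_gcd_eq_one.1 ((Prime.coprime_iff_not_dvd hp).2 h).symm

theorem jac_sq_mul {p : ℕ} [Fact p.Prime] {a x y : ℤ} (hx : ¬ (p : ℤ) ∣ x)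
    (h : (p : ℤ) ∣ a * x ^ 2 - y ^ 2) (ha : ¬ (p : ℤ) ∣ a) : jacobiSym a p = 1 := by
  have hp : Prime (p : ℤ) := Nat.prime_iff_prime_int.1 (Fact.out)
  have hy : ¬ (p : ℤ) ∣ y := by
    intro hy
    have h1 : (p : ℤ) ∣ a * x ^ 2 := by
      have := dvd_add h (Dvd.dvd.pow hy two_ne_zero)
      simpa using this
    rcases hp.dvd_or_dvd h1 with h2 | h2
    · exact ha h2
    · exact hx (hp.dvd_of_dvd_pow h2)
  have gx : Int.gcd x p = 1 := gcd_one hx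
  have gy : Int.gcd y p = 1 := gcd_one hy
  have e1 : jacobiSym (a * x ^ 2) p = jacobiSym (y ^ 2) p :=
    jacobiSym.mod_left' (Int.modEq_iff_dvd.2 h).symm
  rw [jacobiSym.mul_left, jacobiSym.sq_one' gx, jacobiSym.sq_one' gy, mul_one] at e1
  exact e1

theorem sE_rho_aux {n p : ℕ} [Fact p.Prime] (hp : p ≠ 2) (h17 : p ≠ 17) (c : ℤ)
    (h : (p : ℤ) ∣ c → jacobiSym (-17) p = 1) : sE n p (17 * c ^ 2) = jacobiSym 17 p := by
  have hp' : Prime (p : ℤ) := Nat.prime_iff_prime_int.1 (Fact.out)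
  have h0 : (p : ℤ) ≠ 0 := hp'.ne_zero
  have h17' : ¬ (p : ℤ) ∣ 17 := by
    intro h1
    have h2 : p ∣ 17 := by exact_mod_cast h1
    exact h17 ((Nat.prime_dvd_prime_iff_eq Fact.out (by norm_num)).1 h2)
  unfold sE sgp
  rw [if_neg hp]
  by_cases hc : (p : ℤ) ∣ c
  · obtain ⟨d, rfl⟩ := hc
    have e1 : (17 * ((p : ℤ) * d) ^ 2) / p = p * (17 * d ^ 2) := by
      rw [show 17 * ((p : ℤ) * d) ^ 2 = p * (p * (17 * d ^ 2)) by ring, Int.mul_ediv_cancel_left _ h0]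
    rw [if_pos ⟨p * (17 * d ^ 2), by ring⟩, e1, if_pos (dvd_mul_right _ _)]
    have h2 := h (dvd_mul_right _ _)
    rw [show (-17 : ℤ) = (-1) * 17 by norm_num, jacobiSym.mul_left] at h2
    have h3 : jacobiSym 17 p * jacobiSym 17 p = 1 := by
      have gx : Int.gcd 17 p = 1 := gcd_one h17'
      rw [← jacobiSym.mul_left]
      have := jacobiSym.sq_one' gx
      rw [sq] at this
      exact this
    push_cast
    calc jacobiSym (-1) p = jacobiSym (-1) p * (jacobiSym 17 p * jacobiSym 17 p) := by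
          rw [h3, mul_one]
      _ = jacobiSym 17 p := by rw [← mul_assoc, h2, one_mul]
  · have hn : ¬ (p : ℤ) ∣ 17 * c ^ 2 := by
      intro h1
      rcases hp'.dvd_or_dvd h1 with h2 | h2
      · exact h17' h2
      · exact hc (hp'.dvd_of_dvd_pow h2)
    rw [if_neg hn, jacobiSym.mul_left]
    have gx : Int.gcd c p = 1 := gcd_one hc
    rw [jacobiSym.sq_one' gx, mul_one]

theorem not_both {p : ℕ} {n : ℕ} (h2 : ¬ p ^ 2 ∣ n) {v : V3} (q : ℤ)
    (h : (n : ℤ) = q) (hq : (p : ℤ) ∣ v 0 → (p : ℤ) ∣ v 1 → (p : ℤ) ∣ v 2 → (p : ℤ) ^ 2 ∣ q)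
    (hc : (p : ℤ) ∣ v 2) (h0 : (p : ℤ) ∣ v 0) (h1 : (p : ℤ) ∣ v 1) : False := by
  have := hq h0 h1 hc
  rw [← h] at this
  exact h2 (by exact_mod_cast this)

theorem sE_rho1 {n p : ℕ} [Fact p.Prime] (hp : p ≠ 2) (h17 : p ≠ 17) (hn : p ∣ n)
    (hn2 : ¬ p ^ 2 ∣ n) {v : V3} (hv : v ∈ vec1 n) : sE n p (17 * v 2 ^ 2) = jacobiSym 17 p := by
  refine sE_rho_aux hp h17 _ fun hc => ?_
  have hp' : Prime (p : ℤ) := Nat.prime_iff_prime_int.1 (Fact.out)
  rw [mem_vec1] at hv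
  have h17' : ¬ (p : ℤ) ∣ -17 := by
    intro h1
    have h2 : p ∣ 17 := by
      have := (dvd_neg (a := (p : ℤ)) (b := 17)).1 h1
      exact_mod_cast this
    exact h17 ((Nat.prime_dvd_prime_iff_eq Fact.out (by norm_num)).1 h2)
  have h2' : ¬ (p : ℤ) ∣ 2 := by
    intro h1
    have h2 : p ∣ 2 := by exact_mod_cast h1
    exact hp ((Nat.prime_dvd_prime_iff_eq Fact.out (by norm_num)).1 h2)
  have hq : (p : ℤ) ∣ ip1 v v := by rw [hv]; exact_mod_cast hn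
  obtain ⟨c, hc'⟩ := hc
  by_cases h7 : p = 7
  · subst h7; decide +kernel
  have h7' : ¬ (p : ℤ) ∣ 7 := by
    intro h1
    have h2 : p ∣ 7 := by exact_mod_cast h1
    exact h7 ((Nat.prime_dvd_prime_iff_eq Fact.out (by norm_num)).1 h2)
  have e : (p : ℤ) ∣ (-17) * (2 * v 1) ^ 2 - (7 * v 0 - 3 * v 1) ^ 2 := by
    have e1 : (-17) * (2 * v 1) ^ 2 - (7 * v 0 - 3 * v 1) ^ 2 =
        -7 * ip1 v v + 7 * (20 * v 2 - 4 * v 0 - 8 * v 1) * v 2 := by
      unfold ip1; ring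
    rw [e1, hc']
    exact dvd_add (Dvd.dvd.mul_left hq _) ⟨7 * (20 * ((p : ℤ) * c) - 4 * v 0 - 8 * v 1) * c, by ring⟩
  refine jac_sq_mul ?_ e h17'
  intro h1
  have h3 : (p : ℤ) ∣ v 1 := by
    rcases hp'.dvd_or_dvd h1 with h | h
    · exact absurd h h2'
    · exact h
  have h4 : (p : ℤ) ∣ v 0 := by
    have h5 : (p : ℤ) ∣ (7 * v 0 - 3 * v 1) ^ 2 := by
      have h6 : (p : ℤ) ∣ (-17) * (2 * v 1) ^ 2 := Dvd.dvd.mul_left (Dvd.dvd.pow h1 two_ne_zero) _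
      have := dvd_sub h6 e
      simpa using this
    have h6 := hp'.dvd_of_dvd_pow h5
    have h8 : (p : ℤ) ∣ 7 * v 0 := by
      have := dvd_add h6 (Dvd.dvd.mul_left h3 3)
      simpa using this
    rcases hp'.dvd_or_dvd h8 with h | h
    · exact absurd h h7'
    · exact h
  refine not_both hn2 (ip1 v v) hv.symm ?_ ⟨c, hc'⟩ h4 h3
  rintro ⟨a, ha⟩ ⟨b, hb⟩ ⟨d, hd⟩
  unfold ip1
  rw [ha, hb, hd]
  exact ⟨7 * (a * a) + 11 * (b * b) + 20 * (d * d) - 3 * (a * b + b * a) -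
    2 * (a * d + d * a) - 4 * (b * d + d * b), by ring⟩

theorem sE_rho2 {n p : ℕ} [Fact p.Prime] (hp : p ≠ 2) (h17 : p ≠ 17) (hn : p ∣ n)
    (hn2 : ¬ p ^ 2 ∣ n) {v : V3} (hv : v ∈ vec2 n) : sE n p (17 * v 2 ^ 2) = jacobiSym 17 p := by
  refine sE_rho_aux hp h17 _ fun hc => ?_
  have hp' : Prime (p : ℤ) := Nat.prime_iff_prime_int.1 (Fact.out)
  rw [mem_vec2] at hv
  have h17' : ¬ (p : ℤ) ∣ -17 := by
    intro h1
    have h2 : p ∣ 17 := by
      have := (dvd_neg (a := (p : ℤ)) (b := 17)).1 h1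
      exact_mod_cast this
    exact h17 ((Nat.prime_dvd_prime_iff_eq Fact.out (by norm_num)).1 h2)
  have h2' : ¬ (p : ℤ) ∣ 2 := by
    intro h1
    have h2 : p ∣ 2 := by exact_mod_cast h1
    exact hp ((Nat.prime_dvd_prime_iff_eq Fact.out (by norm_num)).1 h2)
  have hq : (p : ℤ) ∣ ip2 v v := by rw [hv]; exact_mod_cast hn
  obtain ⟨c, hc'⟩ := hc
  by_cases h7 : p = 3
  · subst h7; decide +kernel
  have h7' : ¬ (p : ℤ) ∣ 3 := by
    intro h1
    have h2 : p ∣ 3 := by exact_mod_cast h1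
    exact h7 ((Nat.prime_dvd_prime_iff_eq Fact.out (by norm_num)).1 h2)
  have e : (p : ℤ) ∣ (-17) * (2 * v 1) ^ 2 - (3 * v 0 - v 1) ^ 2 := by
    have e1 : (-17) * (2 * v 1) ^ 2 - (3 * v 0 - v 1) ^ 2 =
        -3 * ip2 v v + 3 * (23 * v 2 - 2 * v 0 - 22 * v 1) * v 2 := by
      unfold ip2; ring
    rw [e1, hc']
    exact dvd_add (Dvd.dvd.mul_left hq _) ⟨3 * (23 * ((p : ℤ) * c) - 2 * v 0 - 22 * v 1) * c, by ring⟩
  refine jac_sq_mul ?_ e h17'
  intro h1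
  have h3 : (p : ℤ) ∣ v 1 := by
    rcases hp'.dvd_or_dvd h1 with h | h
    · exact absurd h h2'
    · exact h
  have h4 : (p : ℤ) ∣ v 0 := by
    have h5 : (p : ℤ) ∣ (3 * v 0 - v 1) ^ 2 := by
      have h6 : (p : ℤ) ∣ (-17) * (2 * v 1) ^ 2 := Dvd.dvd.mul_left (Dvd.dvd.pow h1 two_ne_zero) _
      have := dvd_sub h6 e
      simpa using this
    have h6 := hp'.dvd_of_dvd_pow h5
    have h8 : (p : ℤ) ∣ 3 * v 0 := by
      have := dvd_add h6 h3
      simpa using this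
    rcases hp'.dvd_or_dvd h8 with h | h
    · exact absurd h h7'
    · exact h
  refine not_both hn2 (ip2 v v) hv.symm ?_ ⟨c, hc'⟩ h4 h3
  rintro ⟨a, ha⟩ ⟨b, hb⟩ ⟨d, hd⟩
  unfold ip2
  rw [ha, hb, hd]
  exact ⟨3 * (a * a) + 23 * (b * b) + 23 * (d * d) - (a * b + b * a) -
    (a * d + d * a) - 11 * (b * d + d * b), by ring⟩

/-! ### the prime `2` -/

theorem c2_one_mod {n : ℕ} {u : ℤ} (h : u % 8 = 1) : c2 n u = 1 := by
  unfold c2
  rw [if_neg (by omega)]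
  split_ifs <;> omega

theorem t2_sq (n : ℕ) : t2 n ^ 2 = 1 := by
  unfold t2
  split_ifs <;> norm_num

theorem odd_sq_mod (u : ℤ) (h : u % 2 = 1) : u ^ 2 % 8 = 1 := by
  have h8 : u % 8 = 1 ∨ u % 8 = 3 ∨ u % 8 = 5 ∨ u % 8 = 7 := by omega
  rcases h8 with h | h | h | h <;> simp [pow_two, Int.mul_emod, h]

theorem sE_rho_two_aux {n : ℕ} (c : ℤ) (h : c = 0 → c2 n (-1) = 1) : sE n 2 (17 * c ^ 2) = 1 := by
  unfold sE sg2
  rw [if_pos rfl]
  by_cases hc : c = 0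
  · rw [if_pos (by rw [hc]; norm_num), h hc]; norm_num
  rw [if_neg (by positivity)]
  have : Fact (Nat.Prime 2) := ⟨Nat.prime_two⟩
  set k := padicValInt 2 c with hk
  have e1 : padicValInt 2 (17 * c ^ 2) = 2 * k := by
    rw [padicValInt.mul (by norm_num) (by positivity), sq, padicValInt.mul hc hc]
    have : padicValInt 2 17 = 0 := by
      apply padicValInt.eq_zero_of_not_dvd; norm_num
    omega
  have hd : (2 : ℤ) ^ k ∣ c := by
    have := padicValInt_dvd (p := 2) c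
    simpa using this
  obtain ⟨d, hd'⟩ := hd
  have hodd : d % 2 = 1 := by
    by_contra hne
    have h2 : (2 : ℤ) ∣ d := by omega
    obtain ⟨e, he⟩ := h2
    have h3 : (2 : ℤ) ^ (k + 1) ∣ c := ⟨e, by rw [hd', he]; ring⟩
    have h4 := (padicValInt_dvd_iff (p := 2) (k + 1) c).1 (by simpa using h3)
    rcases h4 with h4 | h4
    · exact hc h4
    · omega
  have e2 : 17 * c ^ 2 / 2 ^ (2 * k) = 17 * d ^ 2 := by
    apply Int.ediv_eq_of_eq_mul_right (by positivity)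
    rw [hd']; ring
  rw [e1, e2, c2_one_mod, pow_mul, t2_sq, one_pow, one_mul]
  have := odd_sq_mod d hodd
  omega

theorem c2_neg_one_of {n : ℕ} (h : n % 32 = 24) : c2 n (-1) = 1 := by
  unfold c2
  rw [if_neg (by norm_num), if_neg (by omega), if_neg (by omega), if_pos (by norm_num)]

theorem mod_case (n : ℕ) (h : Ev n) : ((n : ℤ) : ZMod 32) = 4 ∨ ((n : ℤ) : ZMod 32) = 20 ∨
    ((n : ℤ) : ZMod 32) = 8 ∨ ((n : ℤ) : ZMod 32) = 24 := by
  obtain ⟨m, rfl, -, hm⟩ := h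
  have h : (4 * m) % 32 = 4 ∨ (4 * m) % 32 = 20 ∨ (4 * m) % 32 = 8 ∨ (4 * m) % 32 = 24 := by omega
  rcases h with h | h | h | h
  · left
    rw [Int.cast_natCast, ← ZMod.natCast_mod, h]; rfl
  · right; left
    rw [Int.cast_natCast, ← ZMod.natCast_mod, h]; rfl
  · right; right; left
    rw [Int.cast_natCast, ← ZMod.natCast_mod, h]; rfl
  · right; right; right
    rw [Int.cast_natCast, ← ZMod.natCast_mod, h]; rfl

theorem fin1 : ∀ a b : ZMod 32, (7 * a ^ 2 - 6 * a * b + 11 * b ^ 2 = 4 ∨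
    7 * a ^ 2 - 6 * a * b + 11 * b ^ 2 = 20 ∨ 7 * a ^ 2 - 6 * a * b + 11 * b ^ 2 = 8 ∨
    7 * a ^ 2 - 6 * a * b + 11 * b ^ 2 = 24) → 7 * a ^ 2 - 6 * a * b + 11 * b ^ 2 = 24 := by
  decide +kernel

theorem fin2 : ∀ a b : ZMod 32, (3 * a ^ 2 - 2 * a * b + 23 * b ^ 2 = 4 ∨
    3 * a ^ 2 - 2 * a * b + 23 * b ^ 2 = 20 ∨ 3 * a ^ 2 - 2 * a * b + 23 * b ^ 2 = 8 ∨
    3 * a ^ 2 - 2 * a * b + 23 * b ^ 2 = 24) → 3 * a ^ 2 - 2 * a * b + 23 * b ^ 2 = 24 := by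
  decide +kernel

theorem sE_rho1_two {n : ℕ} (hn : Ev n) {v : V3} (hv : v ∈ vec1 n) :
    sE n 2 (17 * v 2 ^ 2) = 1 := by
  refine sE_rho_two_aux _ fun hc => c2_neg_one_of ?_
  rw [mem_vec1] at hv
  have e : ((n : ℤ) : ZMod 32) = 7 * (v 0 : ZMod 32) ^ 2 - 6 * (v 0 : ZMod 32) * (v 1 : ZMod 32) +
      11 * (v 1 : ZMod 32) ^ 2 := by
    rw [← hv]
    unfold ip1
    rw [hc]
    push_cast
    ring
  have h := mod_case n hn
  rw [e] at h
  have h2 := fin1 _ _ h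
  rw [← e] at h2
  have h3 : ((n : ℕ) : ZMod 32) = ((24 : ℕ) : ZMod 32) := by
    rw [Int.cast_natCast] at h2
    rw [h2]; rfl
  rw [ZMod.natCast_eq_natCast_iff'] at h3
  exact h3

theorem sE_rho2_two {n : ℕ} (hn : Ev n) {v : V3} (hv : v ∈ vec2 n) :
    sE n 2 (17 * v 2 ^ 2) = 1 := by
  refine sE_rho_two_aux _ fun hc => c2_neg_one_of ?_
  rw [mem_vec2] at hv
  have e : ((n : ℤ) : ZMod 32) = 3 * (v 0 : ZMod 32) ^ 2 - 2 * (v 0 : ZMod 32) * (v 1 : ZMod 32) +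
      23 * (v 1 : ZMod 32) ^ 2 := by
    rw [← hv]
    unfold ip2
    rw [hc]
    push_cast
    ring
  have h := mod_case n hn
  rw [e] at h
  have h2 := fin2 _ _ h
  rw [← e] at h2
  have h3 : ((n : ℕ) : ZMod 32) = ((24 : ℕ) : ZMod 32) := by
    rw [Int.cast_natCast] at h2
    rw [h2]; rfl
  rw [ZMod.natCast_eq_natCast_iff'] at h3
  exact h3

/-! ### products of Jacobi symbols -/

theorem jac_prod (a : ℤ) (S : Finset ℕ) (hS : ∀ p ∈ S, p ≠ 0) :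
    jacobiSym a (∏ p ∈ S, p) = ∏ p ∈ S, jacobiSym a p := by
  classical
  induction S using Finset.induction_on with
  | empty => simp
  | insert p S hp ih =>
    rw [prod_insert hp, prod_insert hp, jacobiSym.mul_right' _ (hS p (mem_insert_self _ _)),
      ih (fun q hq => hS q (mem_insert_of_mem hq))]
    exact prod_ne_zero_iff.2 fun q hq => hS q (mem_insert_of_mem hq)

theorem jac_prod' (a : ℤ) {N : ℕ} (hN : Squarefree N) :
    ∏ p ∈ N.primeFactors, jacobiSym a p = jacobiSym a N := by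
  rw [← jac_prod a _ (fun p hp => (Nat.prime_of_mem_primeFactors hp).ne_zero),
    Nat.prod_primeFactors_of_squarefree hN]

theorem jac_neg_one {N : ℕ} (h : N % 4 = 3) : jacobiSym (-1) N = -1 := by
  rw [jacobiSym.at_neg_one (Nat.odd_iff.2 (by omega)), ZMod.χ₄_nat_three_mod_four h]

theorem jac_neg_one' {N : ℕ} (h : N % 4 = 1) : jacobiSym (-1) N = 1 := by
  rw [jacobiSym.at_neg_one (Nat.odd_iff.2 (by omega)), ZMod.χ₄_nat_one_mod_four h]

theorem jac_17 {N : ℕ} (h : Odd N) : jacobiSym 17 N = jacobiSym N 17 := by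
  have := jacobiSym.quadratic_reciprocity_one_mod_four (a := 17) (b := N) (by norm_num) h
  exact_mod_cast this

end Pool.Agent.N99.P17G
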