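import Mathlib
import Pool.Agent.N99.P17G.Van2
import Pool.Agent.N970.P17G.Sign
import Pool.Agent.N970.P17G.Two

/-!
# P17G: the vanishing theorems `S_VANG`, `S_VANGE` from the sign functions at the odd primes
-/

set_option autoImplicit false

namespace Pool.Agent.N99.P17G

open Finset
open Pool.Agent.N969.P15 (V3 tw ep2 Qc Qe psp un Ev tb c2 chE psp2)
open Pool.Agent.N972.P17
open Pool.Agent.N969.P17G
open Pool.Agent.N575.P17 (mem_vec1 mem_vec2)
open Pool.Agent.N970.P17G (HasSign)

theorem sg_of {n p : ℕ} (h : HasSign n p) :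
    Sg ip1 (vec1 n) n (sE n p) ∧ Sg ip2 (vec2 n) n (sE n p) := by
  obtain ⟨f, g, -, -, h1, h2, -⟩ := h
  exact ⟨⟨f, h1⟩, ⟨g, h2⟩⟩

/-- the product of the signs of `-1` over odd primes -/
theorem prod_neg_one {n N : ℕ} (hN : Squarefree N) (h2 : Odd N) :
    ∏ p ∈ N.primeFactors, sE n p 0 = jacobiSym (-1) N := by
  rw [← jac_prod' _ hN]
  refine prod_congr rfl fun p hp => sE_zero ?_
  rintro rfl
  exact absurd (Nat.dvd_of_mem_primeFactors hp) (by rw [Nat.two_dvd_ne_zero]; exact Nat.odd_iff.1 h2)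

/-- the product of the signs of the rotation over odd primes -/
theorem prod_rho {n N : ℕ} (hN : Squarefree N) (h2 : Odd N) (h17 : ¬ 17 ∣ N)
    (hn : ∀ p ∈ N.primeFactors, p ∣ n ∧ ¬ p ^ 2 ∣ n) :
    (∀ v ∈ vec1 n, ∏ p ∈ N.primeFactors, sE n p (17 * v 2 ^ 2) = jacobiSym N 17) ∧
    (∀ v ∈ vec2 n, ∏ p ∈ N.primeFactors, sE n p (17 * v 2 ^ 2) = jacobiSym N 17) := by
  have k2 : ∀ p ∈ N.primeFactors, p ≠ 2 := by
    rintro p hp rfl
    exact absurd (Nat.dvd_of_mem_primeFactors hp) (by rw [Nat.two_dvd_ne_zero]; exact Nat.odd_iff.1 h2)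
  have k17 : ∀ p ∈ N.primeFactors, p ≠ 17 := by
    rintro p hp rfl
    exact h17 (Nat.dvd_of_mem_primeFactors hp)
  rw [← jac_17 h2, ← jac_prod' _ hN]
  constructor
  · intro v hv
    refine prod_congr rfl fun p hp => ?_
    haveI : Fact p.Prime := ⟨Nat.prime_of_mem_primeFactors hp⟩
    exact sE_rho1 (k2 p hp) (k17 p hp) (hn p hp).1 (hn p hp).2 hv
  · intro v hv
    refine prod_congr rfl fun p hp => ?_
    haveI : Fact p.Prime := ⟨Nat.prime_of_mem_primeFactors hp⟩
    exact sE_rho2 (k2 p hp) (k17 p hp) (hn p hp).1 (hn p hp).2 hv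

theorem jac17_zero (c : ℕ) : jacobiSym ((17 * c : ℕ) : ℤ) 17 = 0 := by
  push_cast
  rw [jacobiSym.mul_left, show jacobiSym 17 17 = 0 by decide +kernel, zero_mul]

theorem jac17_cases {N : ℕ} (h : jacobiSym N 17 ≠ 0) (h1 : jacobiSym N 17 ≠ 1) :
    jacobiSym N 17 = -1 := by
  have h2 : Int.gcd N 17 = 1 := by
    by_contra h3
    exact h (jacobiSym.eq_zero_iff_not_coprime.2 h3)
  rcases jacobiSym.eq_one_or_neg_one (b := 17) h2 with h3 | h3
  · exact absurd h3 h1
  · exact h3

theorem jac17_factors {A m : ℕ} (h : jacobiSym ((A * m : ℕ) : ℤ) 17 = -1) :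
    jacobiSym A 17 * jacobiSym m 17 = -1 ∧ jacobiSym A 17 ≠ 0 ∧ jacobiSym m 17 ≠ 0 := by
  have e : jacobiSym A 17 * jacobiSym m 17 = -1 := by
    rw [← jacobiSym.mul_left, ← h]; push_cast; rfl
  refine ⟨e, ?_, ?_⟩
  · intro h0; rw [h0] at e; norm_num at e
  · intro h0; rw [h0] at e; norm_num at e

theorem sq_not_dvd {m p : ℕ} (hm : Squarefree m) (hp : p.Prime) : ¬ p ^ 2 ∣ m := by
  intro h
  have := hm p (by rw [← sq]; exact h)
  exact hp.one_lt.ne' (Nat.isUnit_iff.1 this)

/-- odd products -/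
theorem vang (HS : ∀ n p : ℕ, Cm n → p.Prime → p ≠ 2 → p ∣ n → HasSign n p) : S_VANG := by
  intro n A hn hA hC
  obtain ⟨hsq, h4, h17⟩ := hn
  have hAsq : Squarefree A := hsq.squarefree_of_dvd hA
  obtain ⟨m, rfl⟩ := hA
  have hAodd : Odd A := by
    rw [Nat.odd_iff]
    rcases Nat.even_or_odd' A with ⟨c, rfl | rfl⟩
    · exfalso
      rw [mul_assoc] at h4
      omega
    · omega
  obtain ⟨e17, eA, em⟩ := jac17_factors h17
  have h2A : ¬ 2 ∣ A := by rw [Nat.two_dvd_ne_zero]; exact Nat.odd_iff.1 hAodd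
  have hsg : ∀ p ∈ A.primeFactors, Sg ip1 (vec1 (A * m : ℕ)) (A * m) (sE (A * m) p) ∧
      Sg ip2 (vec2 (A * m : ℕ)) (A * m) (sE (A * m) p) := by
    intro p hp
    refine sg_of (HS _ p ⟨hsq, h4, h17⟩ (Nat.prime_of_mem_primeFactors hp) ?_
      ((Nat.dvd_of_mem_primeFactors hp).mul_right m))
    rintro rfl
    exact h2A (Nat.dvd_of_mem_primeFactors hp)
  rw [P11_eq _ _ h2A, P22_eq _ _ h2A]
  by_cases hA4 : A % 4 = 1
  · have hneg : jacobiSym A 17 = -1 := jac17_cases eA fun h => hC ⟨hAsq, hA4, h⟩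
    have h17A : ¬ 17 ∣ A := by
      rintro ⟨c, rfl⟩
      exact eA (jac17_zero c)
    have := prod_rho (n := A * m) hAsq hAodd h17A (fun p hp =>
      ⟨(Nat.dvd_of_mem_primeFactors hp).mul_right m,
        sq_not_dvd hsq (Nat.prime_of_mem_primeFactors hp)⟩)
    rw [hneg] at this
    exact van_rho (fun p hp => (hsg p hp).1) (fun p hp => (hsg p hp).2) this.1 this.2
  · have hA3 : A % 4 = 3 := by
      have := Nat.odd_iff.1 hAodd
      omega
    refine van_neg (fun p hp => (hsg p hp).1) (fun p hp => (hsg p hp).2) ?_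
    rw [prod_neg_one hAsq hAodd, jac_neg_one hA3]

theorem c2_neg_one_four {n : ℕ} (h : n % 16 = 4) : c2 n (-1) = -1 := by
  unfold c2
  rw [if_neg (by norm_num), if_pos h, if_neg (by norm_num)]

theorem c2_neg_one_eight {n : ℕ} (h : n % 32 = 8) : c2 n (-1) = -1 := by
  unfold c2
  rw [if_neg (by norm_num), if_neg (by omega), if_pos h, if_neg (by norm_num)]

theorem mul_mod4 {a b c : ℕ} (h : a * b = c) : ((a % 4) * (b % 4)) % 4 = c % 4 := by
  rw [← h, Nat.mul_mod a b 4]

/-- the primes of an even unitary divisor `A = 4 N` or `A = 8 N` -/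
theorem primeFactors_two_mul {N k : ℕ} (hN : Odd N) (hk : k ≠ 0) :
    (2 ^ k * N).primeFactors = insert 2 N.primeFactors := by
  rw [Nat.primeFactors_mul (by positivity) hN.pos.ne', Nat.primeFactors_prime_pow hk Nat.prime_two]
  rfl

/-- even products -/
theorem vange (HS : ∀ n p : ℕ, Cme n → p.Prime → p ≠ 2 → p ∣ n → HasSign n p) : S_VANGE := by
  intro n A hn hA hco hC
  have hEv : Ev n := hn.1
  have hn' := hn
  obtain ⟨⟨m, hm, hsq, h4⟩, h17⟩ := hn
  have hsign : ∀ p, p.Prime → p ∣ n → HasSign n p := by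
    intro p hp hpn
    by_cases h2 : p = 2
    · rw [h2]; exact Pool.Agent.N970.P17G.sign_two hEv
    · exact HS n p hn' hp h2 hpn
  have hsg : ∀ p ∈ A.primeFactors, Sg ip1 (vec1 n) n (sE n p) ∧ Sg ip2 (vec2 n) n (sE n p) := by
    intro p hp
    exact sg_of (hsign p (Nat.prime_of_mem_primeFactors hp)
      ((Nat.dvd_of_mem_primeFactors hp).trans hA))
  obtain ⟨r, hr⟩ := hA
  have hn0 : n ≠ 0 := by
    rw [hm]
    have := hsq.ne_zero
    omega
  have hA0 : A ≠ 0 := by
    rintro rfl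
    rw [zero_mul] at hr
    exact hn0 hr
  have hr' : n / A = r := by
    rw [hr, Nat.mul_div_cancel_left _ (Nat.pos_of_ne_zero hA0)]
  rw [hr'] at hC hco
  have h17' : jacobiSym ((A * r : ℕ) : ℤ) 17 = -1 := by rw [← hr]; exact h17
  obtain ⟨e17, eA, er⟩ := jac17_factors h17'
  -- the exponents of the odd primes
  have hsqn : ∀ p, p.Prime → p ≠ 2 → p ∣ n → ¬ p ^ 2 ∣ n := by
    intro p hp h2 _ hd
    rw [hm] at hd
    have hc : Nat.Coprime (p ^ 2) 4 := by
      have : Nat.Coprime p 2 := (Nat.coprime_primes hp Nat.prime_two).2 h2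
      exact (Nat.Coprime.pow 2 2 this : Nat.Coprime (p ^ 2) (2 ^ 2))
    exact sq_not_dvd hsq hp (hc.dvd_of_dvd_mul_left hd)
  rw [P11E_eq, P22E_eq]
  by_cases hAodd : Odd A
  · -- `A` odd
    have h2A : ¬ 2 ∣ A := by rw [Nat.two_dvd_ne_zero]; exact Nat.odd_iff.1 hAodd
    have hAm : A ∣ m := by
      have h1 : A ∣ 4 * m := ⟨r, by rw [← hm, hr]⟩
      have hc : Nat.Coprime A 4 := by
        have : Nat.Coprime A 2 := Nat.Coprime.symm ((Nat.Prime.coprime_iff_not_dvd Nat.prime_two).2 h2A)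
        exact (Nat.Coprime.pow_right 2 this : Nat.Coprime A (2 ^ 2))
      exact hc.dvd_of_dvd_mul_left h1
    have hAsq : Squarefree A := hsq.squarefree_of_dvd hAm
    obtain ⟨s, hs⟩ := hAm
    have hrs : r = 4 * s := by
      have : A * r = A * (4 * s) := by rw [← hr, hm, hs]; ring
      exact Nat.eq_of_mul_eq_mul_left (Nat.pos_of_ne_zero hA0) this
    by_cases hA4 : A % 4 = 1
    · have hneg : jacobiSym A 17 = -1 := by
        refine jac17_cases eA fun h => hC ⟨Or.inr ⟨⟨hAsq, hA4, h⟩, ⟨s, hrs, ?_, ?_⟩, ?_⟩, hco⟩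
        · exact hsq.squarefree_of_dvd ⟨A, by rw [hs]; ring⟩
        · have := mul_mod4 hs.symm
          rw [hA4, one_mul, Nat.mod_mod] at this
          omega
        · rw [h, one_mul] at e17
          exact e17
      have h17A : ¬ 17 ∣ A := by
        rintro ⟨c, rfl⟩
        exact eA (jac17_zero c)
      have := prod_rho (n := n) hAsq hAodd h17A (fun p hp => by
        have h1 := Nat.prime_of_mem_primeFactors hp
        have h2 : p ≠ 2 := by
          rintro rfl
          exact h2A (Nat.dvd_of_mem_primeFactors hp)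
        have h3 : p ∣ n := hr ▸ (Nat.dvd_of_mem_primeFactors hp).mul_right r
        exact ⟨h3, hsqn p h1 h2 h3⟩)
      rw [hneg] at this
      exact van_rho (fun p hp => (hsg p hp).1) (fun p hp => (hsg p hp).2) this.1 this.2
    · have hA3 : A % 4 = 3 := by
        have := Nat.odd_iff.1 hAodd
        omega
      refine van_neg (fun p hp => (hsg p hp).1) (fun p hp => (hsg p hp).2) ?_
      rw [prod_neg_one hAsq hAodd, jac_neg_one hA3]
  · -- `A` even
    have h2A : 2 ∣ A := even_iff_two_dvd.1 (Nat.not_odd_iff_even.1 hAodd)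
    have hrodd : Odd r := by
      by_contra h
      have h2r : 2 ∣ r := even_iff_two_dvd.1 (Nat.not_odd_iff_even.1 h)
      have := Nat.dvd_gcd h2A h2r
      rw [hco] at this
      omega
    have h2r : ¬ 2 ∣ r := by rw [Nat.two_dvd_ne_zero]; exact Nat.odd_iff.1 hrodd
    have h4A : 4 ∣ A := by
      have h1 : 4 ∣ A * r := ⟨m, by rw [← hr, hm]⟩
      have hc : Nat.Coprime 4 r := by
        have : Nat.Coprime 2 r := (Nat.Prime.coprime_iff_not_dvd Nat.prime_two).2 h2r
        exact (Nat.Coprime.pow_left 2 this : Nat.Coprime (2 ^ 2) r)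
      exact hc.dvd_of_dvd_mul_right h1
    obtain ⟨M, hM⟩ := h4A
    have hMr : M * r = m := by
      have : 4 * (M * r) = 4 * m := by rw [← hm, hr, hM]; ring
      omega
    have hMsq : Squarefree M := hsq.squarefree_of_dvd ⟨r, hMr.symm⟩
    have hrsq : Squarefree r := hsq.squarefree_of_dvd ⟨M, by rw [← hMr]; ring⟩
    have eM : jacobiSym M 17 = jacobiSym A 17 := by
      rw [hM]
      push_cast
      rw [jacobiSym.mul_left, show jacobiSym 4 17 = 1 by decide +kernel, one_mul]
    -- the odd part of `M`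
    obtain ⟨N, k, hk, hN, hAN, hNsq, hN17, hkM⟩ : ∃ N k : ℕ, k ≠ 0 ∧ Odd N ∧ A = 2 ^ k * N ∧
        Squarefree N ∧ jacobiSym N 17 = jacobiSym A 17 ∧
        (M = N ∧ m % 4 = 1 ∨ M = 2 * N ∧ m % 4 = 2) := by
      rcases Nat.even_or_odd' M with ⟨N, hN | hN⟩
      · have hNodd : Odd N := by
          by_contra h
          obtain ⟨c, hc⟩ := even_iff_two_dvd.1 (Nat.not_odd_iff_even.1 h)
          have : 2 ^ 2 ∣ M := ⟨c, by rw [hN, hc]; ring⟩
          exact sq_not_dvd hMsq Nat.prime_two this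
        refine ⟨N, 3, by norm_num, hNodd, by rw [hM, hN]; ring,
          hMsq.squarefree_of_dvd ⟨2, by rw [hN]; ring⟩, ?_, Or.inr ⟨hN, ?_⟩⟩
        · rw [← eM, hN]
          push_cast
          rw [jacobiSym.mul_left, show jacobiSym 2 17 = 1 by decide +kernel, one_mul]
        · rcases h4 with h4 | h4
          · exfalso
            have : 2 ∣ m := ⟨N * r, by rw [← hMr, hN]; ring⟩
            omega
          · exact h4
      · refine ⟨M, 2, by norm_num, ⟨N, hN⟩, by rw [hM]; ring, hMsq, eM, Or.inl ⟨rfl, ?_⟩⟩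
        rcases h4 with h4 | h4
        · exact h4
        · exfalso
          have hMo : Odd m := by
            rw [← hMr]
            exact Odd.mul ⟨N, hN⟩ hrodd
          have := Nat.odd_iff.1 hMo
          omega
    have h2N : 2 ∉ N.primeFactors := fun h =>
      absurd (Nat.dvd_of_mem_primeFactors h) (by rw [Nat.two_dvd_ne_zero]; exact Nat.odd_iff.1 hN)
    by_cases hr17 : jacobiSym r 17 = 1
    · have hA17 : jacobiSym A 17 = -1 := by rw [hr17, mul_one] at e17; exact e17
      have h17N : ¬ 17 ∣ N := by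
        rintro ⟨c, rfl⟩
        rw [hA17] at hN17
        rw [jac17_zero] at hN17
        norm_num at hN17
      have := prod_rho (n := n) hNsq hN h17N (fun p hp => by
        have h1 := Nat.prime_of_mem_primeFactors hp
        have h2 : p ≠ 2 := by
          rintro rfl
          exact h2N hp
        have h3 : p ∣ n := by
          rw [hr, hAN, mul_assoc]
          exact ((Nat.dvd_of_mem_primeFactors hp).mul_right r).mul_left _
        exact ⟨h3, hsqn p h1 h2 h3⟩)
      rw [hN17, hA17] at this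
      refine van_rho (fun p hp => (hsg p hp).1) (fun p hp => (hsg p hp).2) ?_ ?_
      · intro v hv
        rw [hAN, primeFactors_two_mul hN hk, prod_insert h2N, sE_rho1_two hEv hv, one_mul]
        exact this.1 v hv
      · intro v hv
        rw [hAN, primeFactors_two_mul hN hk, prod_insert h2N, sE_rho2_two hEv hv, one_mul]
        exact this.2 v hv
    · have hr17' : jacobiSym r 17 = -1 := jac17_cases er hr17
      have hA17 : jacobiSym A 17 = 1 := by rw [hr17'] at e17; linarith
      have hr4 : r % 4 = 1 := by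
        by_contra hne
        have hr3 : r % 4 = 3 := by
          have := Nat.odd_iff.1 hrodd
          omega
        refine hC ⟨Or.inl ⟨⟨M, hM, hMsq, ?_, by rw [eM, hA17]⟩, hrsq, hr3, hr17'⟩, hco⟩
        have h := mul_mod4 hMr
        rw [hr3] at h
        omega
      have hMm : M % 4 = m % 4 := by
        have h := mul_mod4 hMr
        rw [hr4] at h
        omega
      refine van_neg (fun p hp => (hsg p hp).1) (fun p hp => (hsg p hp).2) ?_
      rw [hAN, primeFactors_two_mul hN hk, prod_insert h2N, sE_zero_two, prod_neg_one hNsq hN]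
      rcases hkM with ⟨h1, h2⟩ | ⟨h1, h2⟩
      · rw [c2_neg_one_four (by omega), jac_neg_one' (by omega)]; norm_num
      · have h3 : N * r % 4 = N % 4 := by
          rw [Nat.mul_mod, hr4, mul_one, Nat.mod_mod]
        have h5 : m = 2 * (N * r) := by rw [← hMr, h1]; ring
        rcases Nat.odd_iff.1 hN with hNo
        by_cases hN4 : N % 4 = 1
        · rw [c2_neg_one_eight (by omega), jac_neg_one' hN4]; norm_num
        · rw [c2_neg_one_of (by omega), jac_neg_one (by omega)]; norm_num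

end Pool.Agent.N99.P17G
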