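import Mathlib
import Pool.Agent.N99.P17G.Van3
import Pool.Agent.N970.P17G.Ort

/-!
# P17G: `S_VANG` and `S_VANGE`
-/

set_option autoImplicit false

namespace Pool.Agent.N99.P17G

open Pool.Agent.N969.P17G

/-- the vanishing theorem, odd products -/
theorem t_VANG : S_VANG :=
  vang fun _ p hn hp _ hd => Pool.Agent.N970.P17G.signs_odd hn p hp hd

/-- the vanishing theorem, even products -/
theorem t_VANGE : S_VANGE :=
  vange fun _ p hn hp _ hd => Pool.Agent.N970.P17G.signs_even hn p hp hd

end Pool.Agent.N99.P17G
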